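import Pool.Agent.H81.RZ.Mat
import Pool.Agent.H81.RZ.Lin

/-!
# Properties of products with affine spaces

Let `P` be a property of schemes of finite type which is closed under closed-open decompositions.
We consider the affine schemes `S`, given by their points, such that `P` is true for all the products
of `S` with affine spaces (`HolA`).
-/

set_option autoImplicit false

open CategoryTheory AlgebraicGeometry MvPolynomial Pool.Agent.Y116.UV Pool.Agent.Q282.UK
  Pool.Agent.H81.RZ

namespace Pool.Agent.H51.R2

variable {R : Type} [CommRing R] {σ τ : Type} {sep : Prop} {P : Sch R → Prop}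

/-- the whole, from the closed and the open part -/
lemma hol_total (hP : Clo sep P) {S : Pts R σ} (hS : Repr S) (e : Fn S) (hc : Hol P (S.clo e))
    (ho : Hol P (S.opn e)) : Hol P S := by
  obtain ⟨A, i1, i2, i3, a, h1, -⟩ := hS
  exact ⟨A, i1, i2, i3, a, h1, hP.total _ _ (ft_aff sep) (triple_away (e.val A a))
    (hc.of_rep hP (h1.clo e)) (ho.of_rep hP (h1.opn e))⟩

/-- a function on the product with an affine space -/
def affFn {S : Pts R σ} (e : Fn S) (κ : Type) : Fn (S.aff κ) where
  val C _ _ p := e.val C (fun s => p (.inl s))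
  nat f _ h := e.nat f _ h

lemma repr_aff {S : Pts R σ} (hS : Repr S) (n : ℕ) : Repr (S.aff (Fin n)) := by
  obtain ⟨A, i1, i2, i3, a, h1, -⟩ := hS
  exact ⟨_, inferInstance, inferInstance, Algebra.FiniteType.trans (S := A) inferInstance
    inferInstance, _, h1.aff (Fin n), trivial⟩

section bij

variable {S : Pts R σ} {T : Pts R τ}
  {F : ∀ (C : Type) [CommRing C] [Algebra R C], (σ → C) → (τ → C)}
  {G : ∀ (C : Type) [CommRing C] [Algebra R C], (τ → C) → (σ → C)}

lemma bij_aff (h : Bij S T F G) (κ : Type) : Bij (S.aff κ) (T.aff κ)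
    (fun C _ _ p => Sum.elim (F C fun s => p (.inl s)) fun t => p (.inr t))
    (fun C _ _ q => Sum.elim (G C fun s => q (.inl s)) fun t => q (.inr t)) where
  natF f p hp t := by
    rcases t with t | t
    · exact h.natF f _ hp t
    · rfl
  natG f q hq s := by
    rcases s with s | s
    · exact h.natG f _ hq s
    · rfl
  memF C _ _ p hp := h.memF C _ hp
  memG C _ _ q hq := h.memG C _ hq
  GF C _ _ p hp := by
    funext s
    rcases s with s | s
    · exact congrFun (h.GF C _ hp) s
    · rfl
  FG C _ _ q hq := by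
    funext t
    rcases t with t | t
    · exact congrFun (h.FG C _ hq) t
    · rfl

/-- one point of a family with no coordinates more -/
lemma bij_aff_zero (S : Pts R σ) : Bij (S.aff (Fin 0)) S (fun _ _ _ p s => p (.inl s))
    (fun _ _ _ q => Sum.elim q fun t => t.elim0) where
  natF _ _ _ _ := rfl
  natG f q hq s := by
    rcases s with s | s
    · rfl
    · exact s.elim0
  memF C _ _ p hp := hp
  memG C _ _ q hq := hq
  GF C _ _ p hp := by
    funext s
    rcases s with s | s
    · rfl
    · exact s.elim0
  FG C _ _ q hq := rfl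

end bij

/-- `P` is true for the products of `S` with all affine spaces. -/
def HolA (P : Sch R → Prop) (S : Pts R σ) : Prop := ∀ n : ℕ, Hol P (S.aff (Fin n))

lemma HolA.hol {S : Pts R σ} (h : HolA P S) : Hol P S := (h 0).trans (bij_aff_zero S)

lemma HolA.repr {S : Pts R σ} (h : HolA P S) : Repr S := h.hol.repr

lemma HolA.trans {S : Pts R σ} {T : Pts R τ}
    {F : ∀ (C : Type) [CommRing C] [Algebra R C], (σ → C) → (τ → C)}
    {G : ∀ (C : Type) [CommRing C] [Algebra R C], (τ → C) → (σ → C)}
    (h : HolA P S) (hb : Bij S T F G) : HolA P T := fun n => (h n).trans (bij_aff hb _)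

lemma HolA.congr {S T : Pts R σ}
    (h : ∀ (C : Type) [CommRing C] [Algebra R C] (p : σ → C), S.pts C p ↔ T.pts C p)
    (hS : HolA P S) : HolA P T := fun n => Hol.congr (fun C _ _ _ => h C _) (hS n)

section clo

variable (hP : Clo sep P)

include hP

lemma HolA.opn {S : Pts R σ} {e : Fn S} (h : HolA P S) (hc : HolA P (S.clo e)) :
    HolA P (S.opn e) := fun n =>
  Hol.congr (fun _ _ _ _ => Iff.rfl) ((h n).opn (affFn e (Fin n)) hP
    (Hol.congr (fun _ _ _ _ => Iff.rfl) (hc n)))

lemma HolA.total {S : Pts R σ} (hS : Repr S) {e : Fn S} (hc : HolA P (S.clo e))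
    (ho : HolA P (S.opn e)) : HolA P S := fun n =>
  hol_total hP (repr_aff hS n) (affFn e (Fin n)) (Hol.congr (fun _ _ _ _ => Iff.rfl) (hc n))
    (Hol.congr (fun _ _ _ _ => Iff.rfl) (ho n))

end clo

/-- the product with the affine line -/
def al (S : Pts R σ) : Pts R (Option σ) where
  pts C _ _ p := S.pts C (fun s => p (some s))
  map f _ h := S.map f h

lemma bij_al (S : Pts R σ) (n : ℕ) : Bij (S.aff (Fin (n + 1))) ((al S).aff (Fin n))
    (fun _ _ _ p => Sum.elim (fun o => o.elim (p (.inr 0)) fun s => p (.inl s))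
      fun k => p (.inr k.succ))
    (fun _ _ _ q => Sum.elim (fun s => q (.inl (some s)))
      (Fin.cases (q (.inl none)) fun k => q (.inr k))) where
  natF f p _ t := by
    rcases t with (_ | t) | t <;> rfl
  natG f q _ s := by
    rcases s with s | s
    · rfl
    · refine Fin.cases rfl (fun k => ?_) s
      rfl
  memF C _ _ p hp := hp
  memG C _ _ q hq := hq
  GF C _ _ p hp := by
    funext s
    rcases s with s | s
    · rfl
    · refine Fin.cases rfl (fun k => ?_) s
      rfl
  FG C _ _ q hq := by
    funext t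
    rcases t with (_ | t) | t <;> rfl

lemma HolA.al {S : Pts R σ} (h : HolA P S) : HolA P (al S) := fun n =>
  (h (n + 1)).trans (bij_al S n)

/-- the last coordinate -/
def lastFn (S : Pts R σ) : Fn (al S) where
  val _ _ _ p := p none
  nat _ _ _ := rfl

lemma bij_zero_section (S : Pts R σ) : Bij S ((R2.al S).clo (lastFn S))
    (fun _ _ _ p o => o.elim 0 p) (fun _ _ _ q s => q (some s)) where
  natF f p _ t := by
    rcases t with _ | t
    · exact map_zero f
    · rfl
  natG _ _ _ _ := rfl
  memF C _ _ p hp := ⟨hp, rfl⟩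
  memG C _ _ q hq := hq.1
  GF C _ _ p hp := rfl
  FG C _ _ q hq := by
    funext t
    rcases t with _ | t
    · exact hq.2.symm
    · rfl

lemma HolA.gm (hP : Clo sep P) {S : Pts R σ} (h : HolA P S) : HolA P S.gm :=
  HolA.congr (fun _ _ _ _ => Iff.rfl) (h.al.opn hP (e := lastFn S) (h.trans (bij_zero_section S)))

/-- the zero algebra -/
lemma p_zero (hP : Clo sep P) (h0 : P (aff R R)) (A : Type) [CommRing A] [Algebra R A]
    [Subsingleton A] : P (aff R A) := by
  have h1 : P (aff R (R ⧸ Ideal.span {(0 : R)})) := by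
    have h2 : Ideal.span {(0 : R)} = ⊥ := by simp
    rw [h2]
    exact H81.RZ.clo_alg hP (AlgEquiv.quotientBot R R).symm h0
  have h2 : P (aff R (Localization.Away (0 : R))) :=
    hP.opened _ _ (ft_aff sep) (triple_away (0 : R)) h1 h0
  have h3 : Subsingleton (Localization.Away (0 : R)) :=
    IsLocalization.subsingleton (M := Submonoid.powers (0 : R)) ⟨1, by simp⟩
  exact H81.RZ.clo_alg hP
    ({ toFun := fun _ => 0
       invFun := fun _ => 0
       left_inv := fun _ => Subsingleton.elim _ _
       right_inv := fun _ => Subsingleton.elim _ _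
       map_mul' := fun _ _ => Subsingleton.elim _ _
       map_add' := fun _ _ => Subsingleton.elim _ _
       commutes' := fun _ => Subsingleton.elim _ _ } : Localization.Away (0 : R) ≃ₐ[R] A) h2

lemma holA_empty (hP : Clo sep P) (h0 : P (aff R R)) {S : Pts R σ} (hS : Repr S)
    (h : ∀ (C : Type) [CommRing C] [Algebra R C] (p : σ → C), S.pts C p → Subsingleton C) :
    HolA P S := fun n => by
  obtain ⟨A, i1, i2, i3, a, h1, -⟩ := repr_aff hS n
  have h2 : Subsingleton A := h A _ h1.mem
  exact ⟨A, i1, i2, i3, a, h1, p_zero hP h0 A⟩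

/-- the point, with all coordinates zero -/
def pnt (R : Type) [CommRing R] (σ : Type) : Pts R σ where
  pts _ _ _ p := ∀ s, p s = 0
  map f _ h s := (congrArg f (h s)).trans (map_zero f)

lemma rep_pnt : Rep (pnt R σ) R (fun _ => 0) where
  mem _ := rfl
  ex C _ _ p hp := ⟨Algebra.ofId R C, fun s => by rw [map_zero, hp s]⟩
  uniq C _ _ f g _ := Subsingleton.elim f g

lemma holA_pnt (hA : ∀ n : ℕ, P (aff R (MvPolynomial (Fin n) R))) : HolA P (pnt R σ) := fun n =>
  ⟨_, inferInstance, inferInstance, inferInstance, _, rep_pnt.aff (Fin n), hA n⟩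

end Pool.Agent.H51.R2
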